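import Mathlib

/-!
# There is no universal countable right-orderable group

For every set `S` of natural numbers let `G S` be the group of order automorphisms of the
lexicographic product `ℤ ×ₗ ℚ` generated by the shift `a (i, x) = (i + 1, x)` and by the map
`b (i, x) = (i, β i x)`, where `β 0` is the translation `x ↦ x + 1`, where `β n` is the dilation
`x ↦ 2 x` for `n ∈ S`, `n ≥ 1`, and where all other `β i` are the identity. Then `a⁻ⁿ b aⁿ` commutes
with `b` if and only if `n ∉ S` (for `n ≥ 1`). So the pairs of generators `(a, b)` of the groups `G S`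
cannot all be mapped injectively into one countable group: pairs with the same image would satisfy the
same relations. A group of order automorphisms of a countable chain is right-orderable.
-/

set_option autoImplicit false

namespace Pool.Agent.Results.MP_49314d_al.NoUniversal

universe u

/-- A group is right-orderable if it has a total order for which `x ≤ y` implies `x z ≤ y z`. -/
def RightOrderable (G : Type u) [Group G] : Prop :=
  ∃ r : LinearOrder G, ∀ x y z : G, r.le x y → r.le (x * z) (y * z)

/-! ### Groups of order automorphisms of a countable chain are right-orderable -/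

section rightOrder

variable {X : Type} [LinearOrder X]

/-- The values of the inverse of an order automorphism along an enumeration of the chain. -/
def key (e : ℕ → X) (g : X ≃o X) : Lex (ℕ → X) := toLex fun n => g⁻¹ (e n)

theorem key_injective {e : ℕ → X} (he : Function.Surjective e) :
    Function.Injective (key e) := by
  intro g h hgh
  have h1 : g⁻¹ = h⁻¹ := by
    ext x
    obtain ⟨n, rfl⟩ := he x
    exact congrFun (congrArg ofLex hgh) n
  exact inv_injective h1

theorem key_lt_mul (e : ℕ → X) {g h : X ≃o X} (z : X ≃o X) (hlt : key e g < key e h) :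
    key e (g * z) < key e (h * z) := by
  obtain ⟨i, hi, hi'⟩ := hlt
  refine ⟨i, fun j hj => ?_, ?_⟩
  · have h1 : g⁻¹ (e j) = h⁻¹ (e j) := hi j hj
    change (g * z)⁻¹ (e j) = (h * z)⁻¹ (e j)
    rw [mul_inv_rev, mul_inv_rev]
    change z⁻¹ (g⁻¹ (e j)) = z⁻¹ (h⁻¹ (e j))
    rw [h1]
  · have h1 : g⁻¹ (e i) < h⁻¹ (e i) := hi'
    change (g * z)⁻¹ (e i) < (h * z)⁻¹ (e i)
    rw [mul_inv_rev, mul_inv_rev]
    exact (OrderIso.strictMono (z⁻¹ : X ≃o X)) h1

theorem rightOrderable_subgroup [Countable X] [Nonempty X] (H : Subgroup (X ≃o X)) :
    RightOrderable H := by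
  obtain ⟨e, he⟩ := exists_surjective_nat X
  have hinj : Function.Injective fun g : H => key e (g : X ≃o X) :=
    (key_injective he).comp Subtype.val_injective
  refine ⟨LinearOrder.lift' _ hinj, fun x y z hxy => ?_⟩
  have h1 : key e (x : X ≃o X) ≤ key e (y : X ≃o X) := hxy
  change key e ((x * z : H) : X ≃o X) ≤ key e ((y * z : H) : X ≃o X)
  rw [Subgroup.coe_mul, Subgroup.coe_mul]
  rcases h1.lt_or_eq with h2 | h2
  · exact (key_lt_mul e _ h2).le
  · rw [key_injective he h2]

end rightOrder

/-! ### The chain and the automorphisms -/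

/-- The lexicographic product of the integers and the rationals. -/
abbrev X : Type := ℤ ×ₗ ℚ

instance : Countable X := inferInstanceAs (Countable (ℤ × ℚ))

/-- The shift `(i, x) ↦ (i + 1, x)`. -/
def shift : X ≃o X where
  toFun p := toLex ((ofLex p).1 + 1, (ofLex p).2)
  invFun p := toLex ((ofLex p).1 - 1, (ofLex p).2)
  left_inv p := by simp
  right_inv p := by simp
  map_rel_iff' := by
    intro p q
    simp only [Equiv.coe_fn_mk, Prod.Lex.le_iff]
    simp

/-- The map `(i, x) ↦ (i, β i x)`. -/
def blocks (β : ℤ → (ℚ ≃o ℚ)) : X ≃o X where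
  toFun p := toLex ((ofLex p).1, β (ofLex p).1 (ofLex p).2)
  invFun p := toLex ((ofLex p).1, (β (ofLex p).1).symm (ofLex p).2)
  left_inv p := by simp
  right_inv p := by simp
  map_rel_iff' := by
    intro p q
    simp only [Equiv.coe_fn_mk, Prod.Lex.le_iff]
    constructor
    · rintro (h | ⟨h1, h2⟩)
      · exact Or.inl h
      · right
        refine ⟨h1, ?_⟩
        simp only [ofLex_toLex] at h1 h2
        rw [← h1] at h2
        exact (β _).le_iff_le.1 h2
    · rintro (h | ⟨h1, h2⟩)
      · exact Or.inl h
      · right
        refine ⟨h1, ?_⟩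
        simp only [ofLex_toLex]
        rw [← h1]
        exact (β _).le_iff_le.2 h2

theorem shift_apply (i : ℤ) (x : ℚ) : shift (toLex (i, x)) = toLex (i + 1, x) := rfl

theorem blocks_apply (β : ℤ → (ℚ ≃o ℚ)) (i : ℤ) (x : ℚ) :
    blocks β (toLex (i, x)) = toLex (i, β i x) := rfl

theorem shift_pow_apply (n : ℕ) (i : ℤ) (x : ℚ) :
    (shift ^ n) (toLex (i, x)) = toLex (i + n, x) := by
  induction n with
  | zero => simp
  | succ n ih =>
    rw [pow_succ']
    change shift ((shift ^ n) (toLex (i, x))) = _
    rw [ih, shift_apply]
    push_cast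
    rw [add_assoc]

/-- Conjugation of `blocks β` by a power of the shift. -/
theorem conj_eq (β : ℤ → (ℚ ≃o ℚ)) (n : ℕ) :
    (shift ^ n)⁻¹ * blocks β * shift ^ n = blocks (fun i => β (i + n)) := by
  rw [mul_assoc, inv_mul_eq_iff_eq_mul]
  ext p
  obtain ⟨⟨i, x⟩, rfl⟩ := toLex.surjective p
  rw [RelIso.mul_apply, RelIso.mul_apply, shift_pow_apply, blocks_apply, blocks_apply,
    shift_pow_apply]

theorem commute_blocks {β γ : ℤ → (ℚ ≃o ℚ)} :
    Commute (blocks β) (blocks γ) ↔ ∀ i, Commute (β i) (γ i) := by
  constructor
  · intro h i
    ext x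
    have h1 := DFunLike.congr_fun h.eq (toLex (i, x))
    exact congrArg (fun p : X => (ofLex p).2) h1
  · intro h
    ext p
    obtain ⟨⟨i, x⟩, rfl⟩ := toLex.surjective p
    have h1 : β i (γ i x) = γ i (β i x) := DFunLike.congr_fun (h i).eq x
    change blocks β (blocks γ (toLex (i, x))) = blocks γ (blocks β (toLex (i, x)))
    rw [blocks_apply, blocks_apply, blocks_apply, blocks_apply, h1]

/-- The dilation `x ↦ 2 x`. -/
def dil : ℚ ≃o ℚ := OrderIso.mulRight₀ 2 (by norm_num)

/-- The translation `x ↦ x + 1`. -/
def tra : ℚ ≃o ℚ := OrderIso.addRight 1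

theorem not_commute : ¬ Commute dil tra := by
  intro h
  have h1 := DFunLike.congr_fun h.eq 0
  change ((0 : ℚ) + 1) * 2 = (0 : ℚ) * 2 + 1 at h1
  norm_num at h1

open Classical in
/-- The blocks of the second generator. -/
noncomputable def β (S : Set ℕ) (i : ℤ) : ℚ ≃o ℚ :=
  if i = 0 then tra else if ∃ n ∈ S, i = n + 1 then dil else 1

/-- The second generator. -/
noncomputable def gen (S : Set ℕ) : X ≃o X := blocks (β S)

theorem commute_iff (S : Set ℕ) (n : ℕ) :
    Commute ((shift ^ (n + 1))⁻¹ * gen S * shift ^ (n + 1)) (gen S) ↔ n ∉ S := by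
  unfold gen
  rw [conj_eq, commute_blocks]
  constructor
  · intro h hS
    have h1 := h 0
    simp only [zero_add] at h1
    have h2 : β S ((n + 1 : ℕ) : ℤ) = dil := by
      unfold β
      rw [if_neg (by omega), if_pos ⟨n, hS, by push_cast; rfl⟩]
    have h3 : β S 0 = tra := by
      unfold β
      rw [if_pos rfl]
    rw [h2, h3] at h1
    exact not_commute h1
  · intro hS i
    by_cases h0 : i = 0
    · have h2 : β S (i + (n + 1 : ℕ)) = 1 := by
        unfold β
        rw [if_neg (by omega), if_neg]
        rintro ⟨m, hm, h⟩
        have : m = n := by omega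
        exact hS (this ▸ hm)
      rw [h2]
      exact Commute.one_left _
    · by_cases h1 : i + (n + 1 : ℕ) = 0
      · have h2 : β S i = 1 := by
          unfold β
          rw [if_neg h0, if_neg]
          rintro ⟨m, hm, h⟩
          omega
        rw [h2]
        exact Commute.one_right _
      · unfold β
        rw [if_neg h0, if_neg h1]
        split_ifs
        · exact Commute.refl _
        · exact Commute.one_right _
        · exact Commute.one_left _
        · exact Commute.refl _

/-! ### The groups -/

/-- The group generated by the shift and by `gen S`. -/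
noncomputable abbrev G (S : Set ℕ) : Type := Subgroup.closure ({shift, gen S} : Set (X ≃o X))

/-- The first generator as an element of `G S`. -/
noncomputable def a (S : Set ℕ) : G S := ⟨shift, Subgroup.subset_closure (by simp)⟩

/-- The second generator as an element of `G S`. -/
noncomputable def b (S : Set ℕ) : G S := ⟨gen S, Subgroup.subset_closure (by simp)⟩

theorem closure_ab (S : Set ℕ) : Subgroup.closure ({a S, b S} : Set (G S)) = ⊤ := by
  have h := Subgroup.closure_closure_coe_preimage (k := ({shift, gen S} : Set (X ≃o X)))
  rw [← h]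
  congr 1
  ext x
  simp only [Set.mem_insert_iff, Set.mem_singleton_iff, Set.mem_preimage, a, b, Subtype.ext_iff]

theorem countable_of_closure {H : Type u} [Group H] {x y : H}
    (h : Subgroup.closure ({x, y} : Set H) = ⊤) : Countable H := by
  have : Countable (FreeGroup Bool) := inferInstanceAs (Countable (Quot _))
  have h1 : (FreeGroup.lift (fun i : Bool => if i then x else y)).range = ⊤ := by
    rw [FreeGroup.range_lift_eq_closure, ← h]
    congr 1
    ext z
    simp only [Set.mem_range, Bool.exists_bool, Set.mem_insert_iff, Set.mem_singleton_iff]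
    constructor
    · rintro (h | h)
      · right; simpa using h.symm
      · left; simpa using h.symm
    · rintro (h | h)
      · right; simpa using h.symm
      · left; simpa using h.symm
  exact (MonoidHom.range_eq_top.1 h1).countable

theorem countable_G (S : Set ℕ) : Countable (G S) := countable_of_closure (closure_ab S)

theorem commute_ab (S : Set ℕ) (n : ℕ) :
    Commute ((a S ^ (n + 1))⁻¹ * b S * a S ^ (n + 1)) (b S) ↔ n ∉ S := by
  rw [← commute_iff S n]
  constructor
  · intro h
    exact congrArg Subtype.val h.eq
  · intro h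
    exact Subtype.ext h.eq

theorem exists_not_embeddable (U : Type u) [Group U] [Countable U] : ∃ (G : Type) (_ : Group G),
      Countable G ∧ (∃ x y : G, Subgroup.closure {x, y} = ⊤) ∧ RightOrderable G ∧
        ∀ f : G →* U, ¬ Function.Injective f := by
  by_contra hcon
  push Not at hcon
  have hf : ∀ S : Set ℕ, ∃ f : G S →* U, Function.Injective f := fun S =>
    hcon (G S) inferInstance (countable_G S) ⟨a S, b S, closure_ab S⟩
      (rightOrderable_subgroup _)
  choose f hf using hf
  have key : ∀ (S : Set ℕ) (n : ℕ),
      Commute ((f S (a S) ^ (n + 1))⁻¹ * f S (b S) * f S (a S) ^ (n + 1)) (f S (b S)) ↔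
        n ∉ S := by
    intro S n
    rw [← commute_ab S n, ← map_pow, ← map_inv, ← map_mul, ← map_mul]
    constructor
    · intro h
      apply hf S
      rw [map_mul, h.eq, ← map_mul]
    · intro h
      exact h.map (f S)
  have hinj : Function.Injective fun S : Set ℕ => (f S (a S), f S (b S)) := by
    intro S T hST
    simp only [Prod.mk.injEq] at hST
    ext n
    have h1 := key S n
    rw [hST.1, hST.2, key T n] at h1
    exact (not_iff_not.1 h1).symm
  have h1 : Countable (Set ℕ) := hinj.countable
  obtain ⟨e, he⟩ := exists_injective_nat (Set ℕ)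
  exact Function.cantor_injective e he

/-- For every countable group `U` (right-orderable or not) there is a right-orderable group `G`,
generated by two elements (in particular `G` is countable), that is not isomorphic to a subgroup
of `U`. Hence there is no universal countable right-orderable group. -/
theorem result :
    (∀ (U : Type u) [Group U] [Countable U], ∃ (G : Type) (_ : Group G),
      Countable G ∧ (∃ x y : G, Subgroup.closure {x, y} = ⊤) ∧ RightOrderable G ∧
        ∀ f : G →* U, ¬ Function.Injective f) ∧
    ¬ ∃ (U : Type u) (_ : Group U), Countable U ∧ RightOrderable U ∧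
        ∀ (G : Type) [Group G], Countable G → RightOrderable G →
          ∃ f : G →* U, Function.Injective f := by
  refine ⟨fun U _ _ => exists_not_embeddable U, ?_⟩
  rintro ⟨U, _, _, _, h⟩
  obtain ⟨G, _, hG, _, hr, hf⟩ := exists_not_embeddable U
  obtain ⟨f, hf'⟩ := h G hG hr
  exact hf f hf'

end Pool.Agent.Results.MP_49314d_al.NoUniversal
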